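import Pool.Agent.K6.H17.CL.Count

/-!
# Pairwise interlaced crossings and Vassiliev invariants of order two

Shadows (starting library `Pool.Agent.R811.Cross.Defs`):

* `Shadow n`: the shadow of an oriented knot diagram with `n` crossings (a Gauss code): the `2 n` edges of the curve are
  numbered in the order in which one runs through them, `next e` is the edge after `e`; the double point `i` is
  passed between the edges `p i` and `next (p i)` and between the edges `q i` and `next (q i)`, every edge is one of
  the edges `p i`, `q i`; `left i` says whether the second strand crosses the first one from the right to the left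
  or from the left to the right;
* `G.diagram s`: the diagram with the shadow `G` in which the crossing `i` is positive for `s i = true` and
  negative for `s i = false`;
* `G.Interlaced i j`: running through the curve one meets `j` exactly once between the two passages through `i`.

`Pool.Agent.R811.VS.Choices`: `dia G s` (the diagram `G.diagram s` as an element of `Dia`).

Vassiliev invariants (starting library `Pool.Agent.H832R3.VJ.Defs`): `Dia` (an oriented diagram with
the finite set of its marked points), `Separated d X Y` (some integer valued Vassiliev invariant of
oriented links of order at most `d` has different values on `X` and `Y`).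
-/

set_option autoImplicit false

namespace Pool.Agent.Results.MP_5f6b43_gt.InterlacedCrossings

open Finset Pool.Agent.H891R2.Jones Pool.Agent.H832R3.VJ Pool.Agent.R811.Cross Pool.Agent.R811.VS
open Pool.Agent.K6.H17.CL (shadow_clique num_bound level_prod D2_exact)

open Classical in
/-- Let `G` be the shadow of an oriented knot diagram with `n` crossings and `C` a set of `k` pairwise
interlaced double points, and let `X` be an arbitrary oriented link diagram, for instance a diagram of the
unknot.

* At most `2 C(k, ⌊k/2⌋) 2^(n-k)` of the `2^n` diagrams with the shadow `G` are not separated from `X` by Vassiliev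
  invariants of order at most two, a proportion of at most `(8/(3k))^(1/2)`.
* If the signs of the crossings are random and independent and both signs of each crossing in `C` have probability
  at least `ε`, then the diagram is not separated from `X` by Vassiliev invariants of order at most two with
  probability at most `(16/(3(1+εk)))^(1/2)`. -/
theorem result (n : ℕ) (G : Shadow n) (C : Finset (Fin n))
    (hC : ∀ i ∈ C, ∀ j ∈ C, i ≠ j → G.Interlaced i j) (X : Dia) :
    #{s : Fin n → Bool | ¬ Separated 2 (dia G s) X} ≤ 2 * (#C).choose (#C / 2) * 2 ^ (n - #C) ∧
    3 * #C * #{s : Fin n → Bool | ¬ Separated 2 (dia G s) X} ^ 2 ≤ 8 * 4 ^ n ∧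
    ∀ (ε : ℝ) (p : Fin n → Bool → ℝ), 0 ≤ ε → (∀ j b, 0 ≤ p j b) → (∀ j ∈ C, ∀ b, ε ≤ p j b) →
      (∀ j, p j false + p j true = 1) →
      3 * (1 + ε * #C) * (∑ s : Fin n → Bool, (∏ j, p j (s j)) *
        (if ¬ Separated 2 (dia G s) X then 1 else 0)) ^ 2 ≤ 16 := by
  have h := shadow_clique G C hC X
  refine ⟨h, num_bound ((Finset.card_le_univ _).trans (by simp)) h, fun ε p h0 hp0 hp hs => ?_⟩
  have h1 := level_prod (F G) (moment 2 X.D.fPoly) (-96) (by norm_num) C
    (fun i hi j hj hij s => D2_exact G (hC j hj i hi (Ne.symm hij)) s) p ε h0 hp0 hp hs
  refine le_trans (mul_le_mul_of_nonneg_left (pow_le_pow_left₀ ?_ ?_ 2) (by positivity)) h1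
  · refine Finset.sum_nonneg fun x _ => mul_nonneg (Finset.prod_nonneg fun j _ => hp0 j _) ?_
    split_ifs <;> norm_num
  · refine Finset.sum_le_sum fun s _ => mul_le_mul_of_nonneg_left ?_ (Finset.prod_nonneg fun j _ => hp0 j _)
    by_cases hs : ¬ Separated 2 (dia G s) X
    · rw [if_pos hs, if_pos (F_of_not_separated G s X hs)]
    · rw [if_neg hs]
      split_ifs <;> norm_num

end Pool.Agent.Results.MP_5f6b43_gt.InterlacedCrossings
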